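import Pool.Agent.H4.EPB.Stm

/-! Part BB6 of the project EP: the Chinese remainder theorem for the moduli `m_k`. -/

set_option autoImplicit false
set_option linter.unreachableTactic false
set_option linter.unusedTactic false

namespace Pool.Agent.H12.EP

open Pool.Agent.Helper687.Arith Pool.Agent.H51.EP Pool.Agent.H4.EPB

variable {M : Type} [PAModel M]

theorem cop_one (n : M) : Cop 1 n := ⟨1, 0, by ring⟩

theorem dvd_of_cop {a b X : M} (h : Cop a b) (ha : a ∣ X) (hb : b ∣ X) : a * b ∣ X := by
  obtain ⟨x, y, hxy⟩ := h
  obtain ⟨X1, hX1⟩ := ha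
  obtain ⟨X2, hX2⟩ := hb
  refine cg_dvd (b := 0) ⟨y * X1, x * X2, ?_⟩
  calc 0 + X + a * b * (y * X1) = X + y * b * (a * X1) := by ring
    _ = X + y * b * X := by rw [← hX1]
    _ = (y * b + 1) * X := by ring
    _ = (x * a) * X := by rw [hxy]
    _ = (x * a) * (b * X2) := by rw [← hX2]
    _ = 0 + a * b * (x * X2) := by ring

theorem BB6 (h5 : S_BB5) : S_BB6 := by
  intro M _ Q L c y hMd
  obtain ⟨hex, hprop, hcop⟩ := h5 M Q L c y hMd
  have hA : ∀ k n, k < y → (k + 1) * (n + 1) = c + 1 → Cop (bn c k) n := by
    intro k n hk hn
    have key : ∀ j : M, j ≤ k → Cop (bn c j) n := by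
      intro j
      refine ind (P := fun j => j ≤ k → Cop (bn c j) n) ?_ ?_ ?_ j
      · unfold Cop
        (repeat' first | with_reducible apply Pool.Agent.H51.EP.Def.cg | with_reducible apply Pool.Agent.H51.EP.DefF.pr | with_reducible apply Pool.Agent.H51.EP.DefF.bn | with_reducible apply Pool.Agent.H51.EP.DefF.ff | with_reducible apply Pool.Agent.H51.EP.DefF.fc | with_reducible apply Pool.Agent.H51.EP.DefF.pw | with_reducible apply Pool.Agent.H51.EP.DefF.sb | with_reducible apply Pool.Agent.H51.EP.DefF.rc | with_reducible apply Pool.Agent.H51.EP.Def.dvd | assumption | with_reducible exact Pool.Agent.Helper687.Arith.DefF.var _ | with_reducible exact Pool.Agent.Helper687.Arith.DefF.const _ | with_reducible exact Pool.Agent.Helper687.Arith.Def.const _ | with_reducible apply Pool.Agent.Helper687.Arith.DefF.val | with_reducible apply Pool.Agent.Helper687.Arith.DefF.pow2 | with_reducible apply Pool.Agent.Helper687.Arith.Def.and | with_reducible apply Pool.Agent.Helper687.Arith.Def.or | with_reducible apply Pool.Agent.Helper687.Arith.Def.iff | with_reducible apply Pool.Agent.Helper687.Arith.Def.not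 | with_reducible apply Pool.Agent.Helper687.Arith.Def.ex | with_reducible apply Pool.Agent.Helper687.Arith.Def.all | with_reducible apply Pool.Agent.Helper687.Arith.Def.imp | with_reducible apply Pool.Agent.Helper687.Arith.Def.eq | with_reducible apply Pool.Agent.Helper687.Arith.Def.lt | with_reducible apply Pool.Agent.Helper687.Arith.Def.le | with_reducible apply Pool.Agent.Helper687.Arith.DefF.add | with_reducible apply Pool.Agent.Helper687.Arith.DefF.mul | with_reducible apply Pool.Agent.Helper687.Arith.DefF.the)
      · intro _
        rw [bn_zero]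
        exact cop_one n
      · intro j ih hj
        have hjk : j < k := succ_le_iff.1 hj
        obtain ⟨m, hm⟩ := hex j (hjk.trans hk)
        rw [(hprop j m (hjk.trans hk) hm).2.2.2.1]
        exact Cop.mul (ih hjk.le) (hcop j k m n (hjk.trans hk) hk hjk.ne hm hn)
    exact key k le_rfl
  refine ⟨hA, ?_, ?_⟩
  · intro X hX
    have key : ∀ k : M, k ≤ y → bn c k ∣ X := by
      intro k
      refine ind (P := fun k => k ≤ y → bn c k ∣ X) ?_ ?_ ?_ k
      · (repeat' first | with_reducible apply Pool.Agent.H51.EP.Def.cg | with_reducible apply Pool.Agent.H51.EP.DefF.pr | with_reducible apply Pool.Agent.H51.EP.DefF.bn | with_reducible apply Pool.Agent.H51.EP.DefF.ff | with_reducible apply Pool.Agent.H51.EP.DefF.fc | with_reducible apply Pool.Agent.H51.EP.DefF.pw | with_reducible apply Pool.Agent.H51.EP.DefF.sb | with_reducible apply Pool.Agent.H51.EP.DefF.rc | with_reducible apply Pool.Agent.H51.EP.Def.dvd | assumption | with_reducible exact Pool.Agent.Helper687.Arith.DefF.var _ | with_reducible exact Pool.Agent.Helper687.Arith.DefF.const _ | with_reducible exact Pool.Agent.Helper687.Arith.Def.const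 _ | with_reducible apply Pool.Agent.Helper687.Arith.DefF.val | with_reducible apply Pool.Agent.Helper687.Arith.DefF.pow2 | with_reducible apply Pool.Agent.Helper687.Arith.Def.and | with_reducible apply Pool.Agent.Helper687.Arith.Def.or | with_reducible apply Pool.Agent.Helper687.Arith.Def.iff | with_reducible apply Pool.Agent.Helper687.Arith.Def.not | with_reducible apply Pool.Agent.Helper687.Arith.Def.ex | with_reducible apply Pool.Agent.Helper687.Arith.Def.all | with_reducible apply Pool.Agent.Helper687.Arith.Def.imp | with_reducible apply Pool.Agent.Helper687.Arith.Def.eq | with_reducible apply Pool.Agent.Helper687.Arith.Def.lt | with_reducible apply Pool.Agent.Helper687.Arith.Def.le | with_reducible apply Pool.Agent.Helper687.Arith.DefF.add | with_reducible apply Pool.Agent.Helper687.Arith.DefF.mul | with_reducible apply Pool.Agent.Helper687.Arith.DefF.the)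
      · intro _
        rw [bn_zero]
        exact one_dvd X
      · intro k ih hk
        have hky : k < y := succ_le_iff.1 hk
        obtain ⟨m, hm⟩ := hex k hky
        rw [(hprop k m hky hm).2.2.2.1]
        exact dvd_of_cop (hA k m hky hm) (ih hky.le) (hX k m hky hm)
    exact key y le_rfl
  · intro f hf
    have hf' : Def (fun v : ℕ → M => v 0 = f (v 1)) := hf
    have h1 : ∀ k : ℕ, DefF (fun v : ℕ → M => f (v k)) := fun k => DefF.app1 hf' (DefF.var k)
    have key : ∀ z : M, z ≤ y →
        ∃ a, ∀ k m, k < z → (k + 1) * (m + 1) = c + 1 → Cg m a (f k) := by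
      intro z
      refine ind (P := fun z => z ≤ y →
        ∃ a, ∀ k m, k < z → (k + 1) * (m + 1) = c + 1 → Cg m a (f k)) ?_ ?_ ?_ z
      · (repeat' first
          | exact h1 _
          | (first | with_reducible apply Pool.Agent.H51.EP.Def.cg | with_reducible apply Pool.Agent.H51.EP.DefF.pr | with_reducible apply Pool.Agent.H51.EP.DefF.bn | with_reducible apply Pool.Agent.H51.EP.DefF.ff | with_reducible apply Pool.Agent.H51.EP.DefF.fc | with_reducible apply Pool.Agent.H51.EP.DefF.pw | with_reducible apply Pool.Agent.H51.EP.DefF.sb | with_reducible apply Pool.Agent.H51.EP.DefF.rc | with_reducible apply Pool.Agent.H51.EP.Def.dvd | assumption | with_reducible exact Pool.Agent.Helper687.Arith.DefF.var _ | with_reducible exact Pool.Agent.Helper687.Arith.DefF.const _ | with_reducible exact Pool.Agent.Helper687.Arith.Def.const _ | with_reducible apply Pool.Agent.Helper687.Arith.DefF.val | with_reducible apply Pool.Agent.Helper687.Arith.DefF.pow2 | with_reducible apply Pool.Agent.Helper687.Arith.Def.and | with_reducible apply Pool.Agent.Helper687.Arith.Def.or | with_reducible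 apply Pool.Agent.Helper687.Arith.Def.iff | with_reducible apply Pool.Agent.Helper687.Arith.Def.not | with_reducible apply Pool.Agent.Helper687.Arith.Def.ex | with_reducible apply Pool.Agent.Helper687.Arith.Def.all | with_reducible apply Pool.Agent.Helper687.Arith.Def.imp | with_reducible apply Pool.Agent.Helper687.Arith.Def.eq | with_reducible apply Pool.Agent.Helper687.Arith.Def.lt | with_reducible apply Pool.Agent.Helper687.Arith.Def.le | with_reducible apply Pool.Agent.Helper687.Arith.DefF.add | with_reducible apply Pool.Agent.Helper687.Arith.DefF.mul | with_reducible apply Pool.Agent.Helper687.Arith.DefF.the))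
      · intro _
        exact ⟨0, fun k m hk => absurd hk (not_lt.2 zero_le)⟩
      · intro z ih hz
        have hzy : z < y := succ_le_iff.1 hz
        obtain ⟨a, ha⟩ := ih hzy.le
        obtain ⟨n, hn⟩ := hex z hzy
        have hn0 : 0 < n := lt_trans zero_lt_one (hprop z n hzy hn).1
        obtain ⟨x, w, hxw⟩ := crt_step (hA z n hzy hn) hn0 a (f z)
        have hMz : Md Q L c z := ⟨hMd.dvd, hMd.two, hMd.sq, hzy.le.trans hMd.le⟩
        obtain ⟨_, hpz, _⟩ := h5 M Q L c z hMz
        refine ⟨a + bn c z * x, fun k m hk hm => ?_⟩
        rcases lt_succ_iff'.1 hk with hk | hk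
        · have hd : m ∣ bn c z * x := (hpz k m hk hm).2.2.1.mul_right x
          exact cg_trans (cg_of_add hd) (ha k m hk hm)
        · subst hk
          have hmn : m = n := by
            have e : (k + 1) * (m + 1) = (k + 1) * (n + 1) := hm.trans hn.symm
            exact add_right_cancel (mul_left_cancel₀ (zero_lt_succ' k).ne' e)
          subst hmn
          rw [hxw]
          exact ⟨0, w, by ring⟩
    exact key y le_rfl

end Pool.Agent.H12.EP
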